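import Pool.Agent.Lib.MP_55ef7c_ag.Tower.C

/-!
Over every field and for every `N ≥ 5` there is a dominant rational self-map of projective
`N`-space whose degree sequence grows like `n ^ (N + 1)`.
-/

namespace Pool.Agent.Results.MP_55ef7c_ag.AllDimensionsAllFields

open Filter Topology Pool.Agent.Lib.MP_55ef7c_ag

theorem result (K : Type*) [Field K] (N : ℕ) (hN : 5 ≤ N) :
    ∃ (f : Fin (N + 1) → MvPolynomial (Fin (N + 1)) K) (d : ℕ) (D : ℕ → ℕ) (δ : ℝ),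
      IsMap f d ∧ AlgebraicIndependent K f ∧ (∀ n e, HasDeg (iter f n) e ↔ e = D n) ∧
      Tendsto (fun n : ℕ => (D n : ℝ) ^ (1 / (n : ℝ))) atTop (𝓝 δ) ∧ δ = 1 ∧
      Asymp (fun n => (D n : ℝ)) (fun n => (n : ℝ) ^ (N + 1) * δ ^ n) ∧
      ∀ l ≤ N, ¬ Asymp (fun n => (D n : ℝ)) (fun n => (n : ℝ) ^ l * δ ^ n) := by
  obtain ⟨m, rfl⟩ : ∃ m, N = m + 5 := ⟨N - 5, by omega⟩
  obtain ⟨f, d, D, δ, h1, h2, h3, h4, h5, h6, h7⟩ := conclusion (tower K m)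
  exact ⟨f, d, D, δ, h1, h2, h3, h4, h5, h6, fun l hl => h7 l (by omega)⟩

end Pool.Agent.Results.MP_55ef7c_ag.AllDimensionsAllFields
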