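import Pool.Agent.Lib.MP_55ef7c_ag.Sextic

/-!
Over every field there is a dominant rational self-map of projective four-space whose degree
sequence grows like `n ^ 6`.
-/

namespace Pool.Agent.Results.MP_55ef7c_ag.SexticOnP4

open Filter Topology Pool.Agent.Lib.MP_55ef7c_ag

theorem result (K : Type*) [Field K] :
    ∃ (f : Fin (4 + 1) → MvPolynomial (Fin (4 + 1)) K) (d : ℕ) (D : ℕ → ℕ) (δ : ℝ),
      IsMap f d ∧ AlgebraicIndependent K f ∧ (∀ n e, HasDeg (iter f n) e ↔ e = D n) ∧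
      Tendsto (fun n : ℕ => (D n : ℝ) ^ (1 / (n : ℝ))) atTop (𝓝 δ) ∧ δ = 1 ∧
      Asymp (fun n => (D n : ℝ)) (fun n => (n : ℝ) ^ 6 * δ ^ n) ∧
      ∀ l ≤ 4, ¬ Asymp (fun n => (D n : ℝ)) (fun n => (n : ℝ) ^ l * δ ^ n) := by
  obtain ⟨f, d, D, δ, h1, h2, h3, h4, h5, h6, h7⟩ := conclusion (sextic K)
  exact ⟨f, d, D, δ, h1, h2, h3, h4, h5, h6, fun l hl => h7 l (by omega)⟩

end Pool.Agent.Results.MP_55ef7c_ag.SexticOnP4
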